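import Mathlib

set_option autoImplicit false

/-! # Measurable cardinals are strong limit cardinals -/

namespace Pool.Agent.Y588.PR

open Cardinal Order Set

universe u

/-- `μ` is a measurable cardinal: uncountable, and some set of cardinality `μ` carries a
`μ`-complete nonprincipal ultrafilter. -/
def IsMeasurableCardinal (μ : Cardinal.{u}) : Prop :=
  ℵ₀ < μ ∧ ∃ X : Type u, #X = μ ∧ ∃ U : Ultrafilter X,
    (∀ x : X, ({x} : Set X) ∉ U) ∧
    ∀ S : Set (Set X), #S < μ → (∀ s ∈ S, s ∈ U) → ⋂₀ S ∈ U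

theorem IsMeasurableCardinal.two_power_lt {μ : Cardinal.{u}} (h : IsMeasurableCardinal μ)
    (ρ : Cardinal.{u}) (hρ : ρ < μ) : 2 ^ ρ < μ := by
  classical
  by_contra hcon
  push Not at hcon
  obtain ⟨h0, X, hX, U, hU1, hU2⟩ := h
  obtain ⟨R, rfl⟩ : ∃ R : Type u, #R = ρ := ⟨ρ.out, Cardinal.mk_out ρ⟩
  rw [← hX, ← Cardinal.mk_set] at hcon
  obtain ⟨f⟩ := hcon
  -- the sets of the ultrafilter
  let P : R → Set X := fun r => if {x | r ∈ f x} ∈ U then {x | r ∈ f x} else {x | r ∉ f x}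
  have hP : ∀ r, P r ∈ U := by
    intro r
    by_cases h : {x | r ∈ f x} ∈ U
    · simp only [P, if_pos h]
      exact h
    · simp only [P, if_neg h]
      exact Ultrafilter.compl_mem_iff_notMem.2 h
  have h1 : ⋂₀ (Set.range P) ∈ U := by
    refine hU2 _ (lt_of_le_of_lt Cardinal.mk_range_le hρ) ?_
    rintro _ ⟨r, rfl⟩
    exact hP r
  have h2 : ∀ x ∈ ⋂₀ (Set.range P), ∀ y ∈ ⋂₀ (Set.range P), x = y := by
    intro x hx y hy
    refine f.injective (Set.ext fun r => ?_)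
    have hx' := hx _ ⟨r, rfl⟩
    have hy' := hy _ ⟨r, rfl⟩
    by_cases h : {x | r ∈ f x} ∈ U
    · simp only [P, if_pos h, Set.mem_setOf_eq] at hx' hy'
      exact ⟨fun _ => hy', fun _ => hx'⟩
    · simp only [P, if_neg h, Set.mem_setOf_eq] at hx' hy'
      exact ⟨fun h => absurd h hx', fun h => absurd h hy'⟩
  obtain ⟨x, hx⟩ := U.nonempty_of_mem h1
  refine hU1 x (Filter.mem_of_superset h1 ?_)
  intro y hy
  exact h2 y hy x hx

end Pool.Agent.Y588.PR
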