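import Mathlib

set_option autoImplicit false

/-! # The asymmetric polarized relation at a cardinal and its successor: basic facts -/

namespace Pool.Agent.Y588.PR

open Cardinal Order Set

universe u v w

/-- The asymmetric polarized relation at `(λ⁺, λ)`: every colouring `c : λ⁺ × λ → {0,1}` is
constantly `0` on some `A × B` with `|A| = λ⁺`, `|B| = λ`, or constantly `1` on some `A × B` with
`A` of order type `α` (the range of a strictly increasing map on the ordinals below `α`)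
and `|B| = λ`. -/
def Arrow (lam : Cardinal.{u}) (α : Ordinal.{u}) : Prop :=
  ∀ c : Ordinal.{u} → Ordinal.{u} → Fin 2,
    (∃ A B : Set Ordinal.{u},
      A ⊆ Set.Iio (succ lam).ord ∧ #A = Cardinal.lift.{u + 1} (succ lam) ∧
      B ⊆ Set.Iio lam.ord ∧ #B = Cardinal.lift.{u + 1} lam ∧
      ∀ a ∈ A, ∀ b ∈ B, c a b = 0) ∨
    (∃ (f : Ordinal.{u} → Ordinal.{u}) (B : Set Ordinal.{u}),
      StrictMonoOn f (Set.Iio α) ∧ (∀ ξ < α, f ξ < (succ lam).ord) ∧
      B ⊆ Set.Iio lam.ord ∧ #B = Cardinal.lift.{u + 1} lam ∧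
      ∀ ξ < α, ∀ b ∈ B, c (f ξ) b = 1)

/-- the relation becomes weaker if `α` becomes smaller -/
theorem Arrow.mono {lam : Cardinal.{u}} {α β : Ordinal.{u}} (h : Arrow lam β) (hab : α ≤ β) :
    Arrow lam α := by
  intro c
  rcases h c with h | ⟨f, B, h1, h2, h3, h4, h5⟩
  · exact Or.inl h
  · exact Or.inr ⟨f, B, h1.mono (Set.Iio_subset_Iio hab), fun ξ hξ => h2 ξ (hξ.trans_le hab), h3,
      h4, fun ξ hξ => h5 ξ (hξ.trans_le hab)⟩

/-- Pulling a set of ordinals below `o` back to the type of `o` preserves cardinality. -/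
lemma card_pull (o : Ordinal.{u}) (A : Set Ordinal.{u}) (hA : A ⊆ Set.Iio o) :
    Cardinal.lift.{u + 1} #{x : o.ToType | (Ordinal.ToType.toOrd x).1 ∈ A} = #A := by
  have e : {x : o.ToType | (Ordinal.ToType.toOrd x).1 ∈ A} ≃ A :=
    { toFun := fun x => ⟨(Ordinal.ToType.toOrd x.1).1, x.2⟩
      invFun := fun a => ⟨Ordinal.ToType.mk ⟨a.1, hA a.2⟩, by simp⟩
      left_inv := fun x => by simp
      right_inv := fun a => by simp }
  have := Cardinal.mk_congr_lift e
  rw [Cardinal.lift_id'.{u, u + 1}] at this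
  exact this

/-- The well-order of type `λ⁺`. -/
abbrev W (lam : Cardinal.{u}) : Type u := (succ lam).ord.ToType

/-- The well-order of type `λ`. -/
abbrev L (lam : Cardinal.{u}) : Type u := lam.ord.ToType

variable {lam : Cardinal.{u}}

theorem mk_W : #(W lam) = succ lam := Cardinal.mk_ord_toType _

theorem mk_L : #(L lam) = lam := Cardinal.mk_ord_toType _

theorem Iio_L (x : L lam) : #(Set.Iio x) < lam := Cardinal.mk_Iio_toType_ord_lt x

theorem Iic_L (hlam : ℵ₀ ≤ lam) (x : L lam) : #(Set.Iic x) < lam := by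
  have h3 : Set.Iic x = insert x (Set.Iio x) := Set.Iio_insert.symm
  rw [h3]
  refine lt_of_le_of_lt (Cardinal.mk_insert_le) ?_
  exact Cardinal.add_lt_of_lt hlam (Iio_L x) (one_lt_aleph0.trans_le hlam)

theorem Iio_W (x : W lam) : #(Set.Iio x) ≤ lam := by
  have := Cardinal.mk_Iio_toType_ord_lt x
  exact Order.lt_succ_iff.1 this

theorem Iic_W (hlam : ℵ₀ ≤ lam) (x : W lam) : #(Set.Iic x) ≤ lam := by
  have h3 : Set.Iic x = insert x (Set.Iio x) := Set.Iio_insert.symm
  rw [h3]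
  refine (Cardinal.mk_insert_le).trans ?_
  exact (add_le_add (Iio_W x) (one_le_aleph0.trans hlam)).trans (Cardinal.add_eq_self hlam).le

theorem L_nonempty (hlam : ℵ₀ ≤ lam) : Nonempty (L lam) := by
  rw [← Cardinal.mk_ne_zero_iff, mk_L]
  exact (aleph0_pos.trans_le hlam).ne'

theorem W_nonempty (hlam : ℵ₀ ≤ lam) : Nonempty (W lam) := by
  rw [← Cardinal.mk_ne_zero_iff, mk_W]
  exact (aleph0_pos.trans_le (hlam.trans (le_succ lam))).ne'

/-- sets of size at most `λ` are bounded in `λ⁺` -/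
theorem bdd (hlam : ℵ₀ ≤ lam) (T : Set (W lam)) (hT : #T ≤ lam) : ∃ e : W lam, ∀ x ∈ T, x < e := by
  by_contra hcon
  push Not at hcon
  have h1 : (Set.univ : Set (W lam)) ⊆ ⋃ x : T, Set.Iic x.1 := by
    intro y _
    obtain ⟨x, hx, hyx⟩ := hcon y
    exact Set.mem_iUnion.2 ⟨⟨x, hx⟩, hyx⟩
  have h2 : succ lam ≤ lam := by
    rw [← mk_W, ← Cardinal.mk_univ]
    refine (Cardinal.mk_le_mk_of_subset h1).trans ((Cardinal.mk_iUnion_le _).trans ?_)
    refine (mul_le_mul' hT (ciSup_le' ?_)).trans (Cardinal.mul_eq_self hlam).le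
    intro x
    exact Iic_W hlam x.1
  exact absurd h2 (not_le.2 (lt_succ lam))

/-- families of size at most `λ` are bounded in `λ⁺` -/
theorem bdd_range (hlam : ℵ₀ ≤ lam) {T : Type u} (hT : #T ≤ lam) (f : T → W lam) :
    ∃ e : W lam, ∀ t, f t < e := by
  obtain ⟨e, he⟩ := bdd hlam (Set.range f) (Cardinal.mk_range_le.trans hT)
  exact ⟨e, fun t => he _ ⟨t, rfl⟩⟩

/-- Transfinite dependent choice along a well-order. -/
lemma exists_seq {J : Type v} {X : Type w} [LinearOrder J] [WellFoundedLT J]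
    (R : J → X → Prop) (Q : J → J → X → X → Prop)
    (h : ∀ (j : J) (g : (i : J) → i < j → X), ∃ x, R j x ∧ ∀ i (hi : i < j), Q i j (g i hi) x) :
    ∃ s : J → X, (∀ j, R j (s j)) ∧ ∀ i j, i < j → Q i j (s i) (s j) := by
  classical
  choose F hF1 hF2 using h
  let s : J → X := (wellFounded_lt (α := J)).fix F
  have hs : ∀ j, s j = F j (fun i _ => s i) := fun j => (wellFounded_lt (α := J)).fix_eq F j
  refine ⟨s, fun j => ?_, fun i j hij => ?_⟩
  · rw [hs j]
    exact hF1 j _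
  · rw [hs j]
    exact hF2 j (fun i _ => s i) i hij

end Pool.Agent.Y588.PR
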