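import Pool.Agent.Y588.PR.Pos

set_option autoImplicit false

/-! # The asymmetric polarized relation: all countable `α` in the case of countable cofinality -/

namespace Pool.Agent.Y588.PR

open Cardinal Order Set

universe u

variable {lam : Cardinal.{u}}

/-- a cofinal sequence -/
theorem exists_cofinal_seq (hlam : ℵ₀ ≤ lam) (hcof : lam.ord.cof = ℵ₀) :
    ∃ l : ℕ → L lam, Monotone l ∧ ∀ x, ∃ n, x ≤ l n := by
  classical
  obtain ⟨S, hScof, hScard⟩ : ∃ S : Set (L lam), (∀ x : L lam, ∃ s ∈ S, x ≤ s) ∧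
      #S = lam.ord.cof := by
    have h1 : Order.cof (L lam) = lam.ord.cof := by
      rw [← Ordinal.cof_type, Ordinal.type_toType]
    obtain ⟨S, hS1, hS2⟩ := Order.exists_cof_eq (L lam)
    exact ⟨S, hS1, hS2.trans h1⟩
  have hc : S.Countable := by
    rw [← Cardinal.le_aleph0_iff_set_countable, hScard, hcof]
  have hne : S.Nonempty := by
    obtain ⟨x⟩ := L_nonempty hlam
    obtain ⟨s, hs, _⟩ := hScof x
    exact ⟨s, hs⟩
  obtain ⟨t, ht⟩ := hc.exists_eq_range hne
  refine ⟨fun n => (Finset.range (n + 1)).sup' ⟨0, by simp⟩ t, ?_, ?_⟩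
  · intro m n hmn
    refine Finset.sup'_mono t ?_ _
    intro i hi
    simp only [Finset.mem_range] at hi ⊢
    omega
  · intro x
    obtain ⟨s, hs, hxs⟩ := hScof x
    rw [ht] at hs
    obtain ⟨n, rfl⟩ := hs
    exact ⟨n, hxs.trans (Finset.le_sup' t (Finset.self_mem_range_succ n))⟩

/-- large sets have large bounded parts -/
theorem exists_part (hlt : ℵ₀ < lam) (l : ℕ → L lam) (hl1 : Monotone l) (hl2 : ∀ x, ∃ n, x ≤ l n)
    (B : Set (L lam)) (ν : Cardinal.{u}) (hν : ν < lam) (k0 : ℕ)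
    (h : ∀ k, k0 ≤ k → ¬ ν ≤ #(B ∩ Set.Iic (l k) : Set (L lam))) : #B < lam := by
  have h1 : B ⊆ ⋃ k : ULift.{u} ℕ, B ∩ Set.Iic (l (max k0 k.down)) := by
    intro x hx
    obtain ⟨n, hn⟩ := hl2 x
    exact Set.mem_iUnion.2 ⟨⟨n⟩, hx, hn.trans (hl1 (le_max_right _ _))⟩
  refine lt_of_le_of_lt ((Cardinal.mk_le_mk_of_subset h1).trans ((Cardinal.mk_iUnion_le _).trans
    (mul_le_mul' (?_ : _ ≤ ℵ₀) (ciSup_le' ?_)))) (Cardinal.mul_lt_of_lt hlt.le hlt hν)
  · simp
  · intro k
    exact (not_le.1 (h _ (le_max_left _ _))).le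

/-- The closure functions `D q`. -/
theorem exists_D (hlam : ℵ₀ ≤ lam) (hsl : ∀ c < lam, 2 ^ c < lam) (l : ℕ → L lam)
    (A : W lam → Set (L lam)) (g0 : W lam → W lam)
    {Q : Type u} [LinearOrder Q] [WellFoundedLT Q] [Countable Q] :
    ∃ D : Q → W lam → W lam, (∀ q y, g0 y ≤ D q y) ∧ (∀ q q', q' < q → ∀ y, D q' y ≤ D q y) ∧
      ∀ q q', q' < q → ∀ δ, Cl (D q) δ → ∀ k, ∀ e < δ, ∃ γ, Cl (D q') γ ∧ e < γ ∧ γ < δ ∧
        A γ ∩ Set.Iic (l k) = A δ ∩ Set.Iic (l k) := by
  classical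
  haveI : Inhabited (W lam → W lam) := ⟨id⟩
  obtain ⟨D, hD⟩ := Pool.Agent.H764R3.ER.exists_rec (I := Q) (X := W lam → W lam)
    (fun q D x => (∀ y, g0 y ≤ x y) ∧ ∀ q' < q, (∀ y, D q' y ≤ x y) ∧
      ∀ (k : ℕ) (τ : Set (Set.Iic (l k))),
        (∃ b, (∀ γ, Cl (D q') γ → A γ ∩ Set.Iic (l k) = Subtype.val '' τ → γ < b) ∧
          ∀ y, b ≤ x y) ∨
        (∀ y, ∃ γ, Cl (D q') γ ∧ A γ ∩ Set.Iic (l k) = Subtype.val '' τ ∧ y < γ ∧ γ ≤ x y))
    (by
      intro q D D' x hDD h
      refine ⟨h.1, fun q' hq' => ?_⟩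
      rw [← hDD q' hq']
      exact h.2 q' hq')
    (by
      intro q D
      let T : Type u := Σ p : {q' // q' < q} × ULift.{u} ℕ, Set (Set.Iic (l p.2.down))
      have hT : #T ≤ lam := by
        rw [Cardinal.mk_sigma]
        refine (Cardinal.sum_le_mk_mul_iSup _).trans ?_
        refine (mul_le_mul' ((?_ : _ ≤ ℵ₀).trans hlam) (ciSup_le' ?_)).trans
          (Cardinal.mul_eq_self hlam).le
        · exact Cardinal.mk_le_aleph0
        · intro p
          rw [Cardinal.mk_set]
          exact (hsl _ (Iic_L hlam _)).le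
      have hg : ∀ t : T, ∃ g : W lam → W lam,
          (∃ b, (∀ γ, Cl (D t.1.1.1) γ → A γ ∩ Set.Iic (l t.1.2.down) = Subtype.val '' t.2 →
            γ < b) ∧ ∀ y, b ≤ g y) ∨
          (∀ y, ∃ γ, Cl (D t.1.1.1) γ ∧ A γ ∩ Set.Iic (l t.1.2.down) = Subtype.val '' t.2 ∧
            y < γ ∧ γ ≤ g y) := by
        intro t
        by_cases hb : ∃ b, ∀ γ, Cl (D t.1.1.1) γ →
            A γ ∩ Set.Iic (l t.1.2.down) = Subtype.val '' t.2 → γ < b
        · obtain ⟨b, hb⟩ := hb
          exact ⟨fun _ => b, Or.inl ⟨b, hb, fun _ => le_rfl⟩⟩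
        · push Not at hb
          have hb' : ∀ y, ∃ γ, Cl (D t.1.1.1) γ ∧
              A γ ∩ Set.Iic (l t.1.2.down) = Subtype.val '' t.2 ∧ y < γ := by
            intro y
            obtain ⟨y', hy'⟩ := bdd hlam {y} (by
              rw [Cardinal.mk_singleton]; exact one_le_aleph0.trans hlam)
            obtain ⟨γ, h1, h2, h3⟩ := hb y'
            exact ⟨γ, h1, h2, (hy' y rfl).trans_le h3⟩
          choose g hg1 hg2 hg3 using hb'
          exact ⟨g, Or.inr fun y => ⟨g y, hg1 y, hg2 y, hg3 y, le_rfl⟩⟩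
      choose g hg using hg
      obtain ⟨G1, hG1⟩ := exists_sup hlam hT g
      obtain ⟨G2, hG2⟩ := exists_sup hlam (T := {q' // q' < q})
        (Cardinal.mk_le_aleph0.trans hlam) (fun q' => D q'.1)
      refine ⟨fun y => max (g0 y) (max (G1 y) (G2 y)), fun y => le_max_left _ _, ?_⟩
      intro q' hq'
      refine ⟨fun y => (hG2 ⟨q', hq'⟩ y).trans ((le_max_right _ _).trans (le_max_right _ _)), ?_⟩
      intro k τ
      have hle : ∀ y, g ⟨(⟨q', hq'⟩, ⟨k⟩), τ⟩ y ≤ max (g0 y) (max (G1 y) (G2 y)) := fun y =>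
        (hG1 _ y).trans ((le_max_left _ _).trans (le_max_right _ _))
      rcases hg ⟨(⟨q', hq'⟩, ⟨k⟩), τ⟩ with ⟨b, hb1, hb2⟩ | h
      · exact Or.inl ⟨b, hb1, fun y => (hb2 y).trans (hle y)⟩
      · refine Or.inr fun y => ?_
        obtain ⟨γ, h1, h2, h3, h4⟩ := h y
        exact ⟨γ, h1, h2, h3, h4.trans (hle y)⟩)
  refine ⟨D, fun q => (hD q).1, fun q q' hq => ((hD q).2 q' hq).1, ?_⟩
  intro q q' hq δ hδ k e he
  have h1 := (hD q).2 q' hq
  have hδ' : Cl (D q') δ := ⟨hδ.1, fun x hx => (h1.1 x).trans_lt (hδ.2 x hx)⟩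
  have hτ : Subtype.val '' ((Subtype.val ⁻¹' (A δ)) : Set (Set.Iic (l k))) =
      A δ ∩ Set.Iic (l k) := by
    rw [Subtype.image_preimage_coe, Set.inter_comm]
  rcases h1.2 k (Subtype.val ⁻¹' (A δ)) with ⟨b, hb1, hb2⟩ | h
  · exfalso
    have h3 := hb1 δ hδ' hτ.symm
    exact absurd ((hb2 e).trans_lt (hδ.2 e he)) (not_lt.2 h3.le)
  · obtain ⟨γ, h3, h4, h5, h6⟩ := h e
    exact ⟨γ, h3, h5, h6.trans_lt (hδ.2 e he), h4.trans hτ⟩

/-- All countable `α`. -/
theorem pos_countable (hlt : ℵ₀ < lam) (hcof : lam.ord.cof = ℵ₀) (hsl : ∀ c < lam, 2 ^ c < lam)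
    (A : W lam → Set (L lam))
    (h0 : ∀ B : Set (L lam), lam ≤ #B → #{γ | Disjoint (A γ) B} ≤ lam)
    (Q : Type u) [LinearOrder Q] [WellFoundedLT Q] [Countable Q] [OrderTop Q] :
    ∃ F : Q → W lam, StrictMono F ∧ lam ≤ #{x | ∀ q, x ∈ A (F q)} := by
  classical
  have hlam : ℵ₀ ≤ lam := hlt.le
  obtain ⟨g0, hg0⟩ := exists_g0 hlam A (large_inter hlam A h0)
  obtain ⟨l, hl1, hl2⟩ := exists_cofinal_seq hlam hcof
  obtain ⟨D, hD1, hD2, hD3⟩ := exists_D hlam hsl l A g0 (Q := Q)
  -- enumeration of `Q`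
  obtain ⟨e, he0, he⟩ : ∃ e : ℕ → Q, e 0 = ⊤ ∧ Function.Surjective e := by
    obtain ⟨e', he'⟩ := exists_surjective_nat Q
    refine ⟨fun n => Nat.casesOn n ⊤ e', rfl, fun q => ?_⟩
    obtain ⟨n, hn⟩ := he' q
    exact ⟨n + 1, hn⟩
  haveI := W_nonempty hlam
  haveI : Inhabited (W lam × ℕ) := ⟨(Classical.arbitrary _, 0)⟩
  let Hyp : ℕ → (ℕ → W lam × ℕ) → Prop := fun n s =>
    (∀ i < n, Cl (D (e i)) (s i).1) ∧ (∀ i < n, ∀ j < n, e i < e j → (s i).1 < (s j).1) ∧
      (∀ i < n, ∀ j < n, e i = e j → (s i).1 = (s j).1)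
  let Con : ℕ → (ℕ → W lam × ℕ) → W lam × ℕ → Prop := fun n s x =>
    Cl (D (e n)) x.1 ∧ (∀ i < n, e i < e n → (s i).1 < x.1) ∧
      (∀ i < n, e n < e i → x.1 < (s i).1) ∧ (∀ i < n, e i = e n → x.1 = (s i).1) ∧
      (∀ m, m + 1 = n → ∃ p < n, A x.1 ∩ Set.Iic (l (s m).2) = A (s p).1 ∩ Set.Iic (l (s m).2)) ∧
      (∀ i < n, (s i).2 ≤ x.2) ∧
      #(Set.Iic (l n)) ≤ #(AA A (insert x.1 ((Finset.range n).image fun i => (s i).1)) ∩
        Set.Iic (l x.2) : Set (L lam))
  obtain ⟨s, hs⟩ := Pool.Agent.H764R3.ER.exists_rec (I := ℕ) (X := W lam × ℕ)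
    (fun n s x => Hyp n s → Con n s x)
    (by
      intro n s s' x hss h h'
      have h'' : Hyp n s := by
        refine ⟨fun i hi => ?_, fun i hi j hj => ?_, fun i hi j hj => ?_⟩
        · rw [hss i hi]; exact h'.1 i hi
        · rw [hss i hi, hss j hj]; exact h'.2.1 i hi j hj
        · rw [hss i hi, hss j hj]; exact h'.2.2 i hi j hj
      obtain ⟨c1, c2, c3, c4, c5, c6, c7⟩ := h h''
      refine ⟨c1, fun i hi => ?_, fun i hi => ?_, fun i hi => ?_, ?_, fun i hi => ?_, ?_⟩
      · rw [← hss i hi]; exact c2 i hi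
      · rw [← hss i hi]; exact c3 i hi
      · rw [← hss i hi]; exact c4 i hi
      · intro m hm
        obtain ⟨p, hp, h1⟩ := c5 m hm
        refine ⟨p, hp, ?_⟩
        rw [← hss m (by omega), ← hss p hp]
        exact h1
      · rw [← hss i hi]; exact c6 i hi
      · have h1 : (Finset.range n).image (fun i => (s' i).1) =
            (Finset.range n).image fun i => (s i).1 := by
          refine Finset.image_congr fun i hi => ?_
          simp only [Finset.coe_range, Set.mem_Iio] at hi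
          rw [hss i hi]
        rw [h1]
        exact c7)
    (by
      intro n s
      by_cases hH : Hyp n s
      swap
      · exact ⟨default, fun h => absurd h hH⟩
      -- the point
      obtain ⟨w, c1, c2, c3, c4, c5⟩ : ∃ w : W lam, Cl (D (e n)) w ∧
          (∀ i < n, e i < e n → (s i).1 < w) ∧
          (∀ i < n, e n < e i → w < (s i).1) ∧ (∀ i < n, e i = e n → w = (s i).1) ∧
          (∀ m, m + 1 = n → ∃ p < n, A w ∩ Set.Iic (l (s m).2) =
            A (s p).1 ∩ Set.Iic (l (s m).2)) := by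
        rcases Nat.eq_zero_or_pos n with hn | hn
        · subst hn
          obtain ⟨w, _, hw⟩ := exists_cl hlam (D (e 0)) (Classical.arbitrary _)
          exact ⟨w, hw, by simp, by simp, by simp, by simp⟩
        by_cases hex : ∃ i < n, e i = e n
        · obtain ⟨i, hi, hei⟩ := hex
          refine ⟨(s i).1, ?_, ?_, ?_, ?_, ?_⟩
          · rw [← hei]; exact hH.1 i hi
          · intro j hj hj'
            exact hH.2.1 j hj i hi (hei.symm ▸ hj')
          · intro j hj hj'
            exact hH.2.1 i hi j hj (hei.symm ▸ hj')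
          · intro j hj hj'
            exact hH.2.2 i hi j hj (hei.trans hj'.symm)
          · intro m hm
            exact ⟨i, hi, rfl⟩
        · push Not at hex
          -- the next larger point
          have hne : ((Finset.range n).filter (fun i => e n < e i)).Nonempty := by
            refine ⟨0, ?_⟩
            simp only [Finset.mem_filter, Finset.mem_range]
            refine ⟨hn, ?_⟩
            rw [he0]
            refine lt_top_iff_ne_top.2 fun h => ?_
            exact hex 0 hn (by rw [he0, h])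
          obtain ⟨p, hp, hpmin⟩ := Finset.exists_min_image _ e hne
          simp only [Finset.mem_filter, Finset.mem_range] at hp hpmin
          -- the bound
          obtain ⟨b, hb, hbb⟩ : ∃ b < (s p).1, ∀ j < n, e j < e n → (s j).1 ≤ b := by
            by_cases hne2 : ((Finset.range n).filter (fun i => e i < e n)).Nonempty
            · obtain ⟨j, hj, hjmax⟩ := Finset.exists_max_image _ (fun i => (s i).1) hne2
              simp only [Finset.mem_filter, Finset.mem_range] at hj hjmax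
              exact ⟨(s j).1, hH.2.1 j hj.1 p hp.1 (hj.2.trans hp.2), fun i hi hi' =>
                hjmax i ⟨hi, hi'⟩⟩
            · obtain ⟨b, hb⟩ := (hH.1 p hp.1).1
              refine ⟨b, hb, fun j hj hj' => ?_⟩
              exfalso
              exact hne2 ⟨j, by simp only [Finset.mem_filter, Finset.mem_range]; exact ⟨hj, hj'⟩⟩
          obtain ⟨w, h1, h2, h3, h4⟩ := hD3 (e p) (e n) hp.2 (s p).1 (hH.1 p hp.1)
            (s (n - 1)).2 b hb
          refine ⟨w, h1, fun i hi hi' => (hbb i hi hi').trans_lt h2, fun i hi hi' => ?_,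
            fun i hi hi' => absurd hi' (hex i hi), ?_⟩
          · have h5 := hpmin i ⟨hi, hi'⟩
            rcases h5.lt_or_eq with h6 | h6
            · exact h3.trans (hH.2.1 p hp.1 i hi h6)
            · rw [← hH.2.2 p hp.1 i hi h6]
              exact h3
          · intro m hm
            have h5 : m = n - 1 := by omega
            subst h5
            exact ⟨p, hp.1, h4⟩
      -- the number
      have hbig : lam ≤ #(AA A (insert w ((Finset.range n).image fun i => (s i).1))) := by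
        refine hg0 _ ?_
        intro γ hγ
        rcases Finset.mem_insert.1 hγ with h | h
        · rw [h]
          exact ⟨c1.1, fun x hx => (hD1 _ x).trans_lt (c1.2 x hx)⟩
        · obtain ⟨i, hi, rfl⟩ := Finset.mem_image.1 h
          have h1 := hH.1 i (Finset.mem_range.1 hi)
          exact ⟨h1.1, fun x hx => (hD1 _ x).trans_lt (h1.2 x hx)⟩
      obtain ⟨k, hk, hk2⟩ : ∃ k, (Finset.range n).sup (fun i => (s i).2) ≤ k ∧
          #(Set.Iic (l n)) ≤ #(AA A (insert w ((Finset.range n).image fun i => (s i).1)) ∩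
            Set.Iic (l k) : Set (L lam)) := by
        by_contra hcon
        push Not at hcon
        exact absurd hbig (not_le.2 (exists_part hlt l hl1 hl2 _ _ (Iic_L hlam (l n)) _
          (fun k hk => not_le.2 (hcon k hk))))
      exact ⟨(w, k), fun _ => ⟨c1, c2, c3, c4, c5, fun i hi =>
        (Finset.le_sup (f := fun i => (s i).2) (Finset.mem_range.2 hi)).trans hk, hk2⟩⟩)
  -- the hypotheses hold
  have hHyp : ∀ n, Hyp n s := by
    intro n
    induction n with
    | zero => exact ⟨by simp, by simp, by simp⟩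
    | succ n ih =>
      obtain ⟨c1, c2, c3, c4, -, -, -⟩ := hs n ih
      refine ⟨fun i hi => ?_, fun i hi j hj hij => ?_, fun i hi j hj hij => ?_⟩
      · rcases Nat.lt_succ_iff_lt_or_eq.1 hi with h | h
        · exact ih.1 i h
        · rw [h]; exact c1
      · rcases Nat.lt_succ_iff_lt_or_eq.1 hi with h | h <;>
          rcases Nat.lt_succ_iff_lt_or_eq.1 hj with h' | h'
        · exact ih.2.1 i h j h' hij
        · subst h'; exact c2 i h hij
        · subst h; exact c3 j h' hij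
        · subst h; subst h'; exact absurd hij (lt_irrefl _)
      · rcases Nat.lt_succ_iff_lt_or_eq.1 hi with h | h <;>
          rcases Nat.lt_succ_iff_lt_or_eq.1 hj with h' | h'
        · exact ih.2.2 i h j h' hij
        · subst h'; exact (c4 i h hij).symm
        · subst h; exact c4 j h' hij.symm
        · subst h; subst h'; rfl
  have hCon : ∀ n, Con n s (s n) := fun n => hs n (hHyp n)
  have hmonoN : ∀ m n, m ≤ n → (s m).2 ≤ (s n).2 := by
    intro m n hmn
    rcases hmn.lt_or_eq with h | h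
    · exact (hCon n).2.2.2.2.2.1 m h
    · rw [h]
  -- the parts
  let Y : ℕ → Set (L lam) := fun n =>
    AA A (insert (s n).1 ((Finset.range n).image fun i => (s i).1)) ∩ Set.Iic (l (s n).2)
  have hY : ∀ n m, Y n ⊆ A (s m).1 := by
    intro n m
    induction m using Nat.strong_induction_on with
    | _ m ih =>
      rcases Nat.lt_trichotomy m n with h | h | h
      · intro x hx
        exact hx.1 _ (Finset.mem_insert_of_mem (Finset.mem_image_of_mem _ (Finset.mem_range.2 h)))
      · subst h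
        intro x hx
        exact hx.1 _ (Finset.mem_insert_self _ _)
      · obtain ⟨p, hp, h1⟩ := (hCon m).2.2.2.2.1 (m - 1) (by omega)
        intro x hx
        have h2 := ih p hp hx
        have h3 : x ∈ Set.Iic (l (s (m - 1)).2) :=
          (show x ≤ l (s n).2 from hx.2).trans (hl1 (hmonoN _ _ (by omega)))
        have h4 : x ∈ A (s p).1 ∩ Set.Iic (l (s (m - 1)).2) := ⟨h2, h3⟩
        rw [← h1] at h4
        exact h4.1
  choose inv hinv using he
  refine ⟨fun q => (s (inv q)).1, ?_, ?_⟩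
  · intro q q' hqq
    refine (hHyp (max (inv q) (inv q') + 1)).2.1 _ ?_ _ ?_ ?_
    · exact Nat.lt_succ_of_le (le_max_left _ _)
    · exact Nat.lt_succ_of_le (le_max_right _ _)
    · rw [hinv, hinv]; exact hqq
  · by_contra hcon
    push Not at hcon
    have h1 : ∀ n, #(Set.Iic (l n)) ≤ #{x | ∀ q, x ∈ A (s (inv q)).1} := by
      intro n
      refine ((hCon n).2.2.2.2.2.2).trans (Cardinal.mk_le_mk_of_subset ?_)
      intro x hx q
      exact hY n _ hx
    have h2 : (Set.univ : Set (L lam)) ⊆ ⋃ k : ULift.{u} ℕ, Set.Iic (l k.down) := by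
      intro x _
      obtain ⟨n, hn⟩ := hl2 x
      exact Set.mem_iUnion.2 ⟨⟨n⟩, hn⟩
    have h3 : lam < lam := by
      conv_lhs => rw [← mk_L (lam := lam), ← Cardinal.mk_univ]
      refine lt_of_le_of_lt ((Cardinal.mk_le_mk_of_subset h2).trans ((Cardinal.mk_iUnion_le _).trans
        (mul_le_mul' (?_ : _ ≤ ℵ₀) (ciSup_le' ?_)))) (Cardinal.mul_lt_of_lt hlam hlt hcon)
      · simp
      · intro k
        exact h1 _
    exact absurd h3 (lt_irrefl _)

end Pool.Agent.Y588.PR
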