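import Pool.Agent.Y588.PR.Neg
import Pool.Agent.Y588.PR.Pos2

set_option autoImplicit false

/-! # The asymmetric polarized relation: summary -/

namespace Pool.Agent.Y588.PR

open Cardinal Order Set

universe u

variable {lam : Cardinal.{u}}

/-- from families of sets to colourings -/
theorem arrow_of (α : Ordinal.{u})
    (h : ∀ A : W lam → Set (L lam),
      (∀ B : Set (L lam), lam ≤ #B → #{γ | Disjoint (A γ) B} ≤ lam) →
      ∃ F : α.ToType → W lam, StrictMono F ∧ lam ≤ #{x | ∀ q, x ∈ A (F q)}) : Arrow lam α := by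
  classical
  intro c
  let A : W lam → Set (L lam) := fun γ =>
    {x | c (Ordinal.ToType.toOrd γ).1 (Ordinal.ToType.toOrd x).1 = 1}
  have himg : ∀ (o : Ordinal.{u}) (T : Set o.ToType),
      (fun x : o.ToType => (Ordinal.ToType.toOrd x).1) '' T ⊆ Set.Iio o ∧
      #((fun x : o.ToType => (Ordinal.ToType.toOrd x).1) '' T) = Cardinal.lift.{u + 1} #T := by
    intro o T
    have h1 : (fun x : o.ToType => (Ordinal.ToType.toOrd x).1) '' T ⊆ Set.Iio o := by
      rintro _ ⟨x, _, rfl⟩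
      exact (Ordinal.ToType.toOrd x).2
    refine ⟨h1, ?_⟩
    rw [← card_pull o _ h1]
    congr 2
    have h2 : {x : o.ToType | (Ordinal.ToType.toOrd x).1 ∈
        (fun x : o.ToType => (Ordinal.ToType.toOrd x).1) '' T} = T := by
      ext x
      constructor
      · rintro ⟨y, hy, hyx⟩
        have h3 : Ordinal.ToType.toOrd y = Ordinal.ToType.toOrd x := Subtype.ext hyx
        rw [← (Ordinal.ToType.mk (o := o)).symm.injective h3]
        exact hy
      · intro hx
        exact ⟨x, hx, rfl⟩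
    rw [h2]
  by_cases h0 : ∀ B : Set (L lam), lam ≤ #B → #{γ | Disjoint (A γ) B} ≤ lam
  · obtain ⟨F, hF1, hF2⟩ := h A h0
    right
    refine ⟨fun ξ => if hξ : ξ < α then (Ordinal.ToType.toOrd (F (Ordinal.ToType.mk ⟨ξ, hξ⟩))).1
      else 0, (fun x : (lam.ord).ToType => (Ordinal.ToType.toOrd x).1) '' {x | ∀ q, x ∈ A (F q)},
      ?_, ?_, (himg _ _).1, ?_, ?_⟩
    · intro ξ hξ η hη hlt
      simp only [Set.mem_Iio] at hξ hη
      simp only [dif_pos hξ, dif_pos hη]
      have h3 : F (Ordinal.ToType.mk ⟨ξ, hξ⟩) < F (Ordinal.ToType.mk ⟨η, hη⟩) := by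
        refine hF1 ?_
        rw [OrderIso.lt_iff_lt]
        exact hlt
      exact (OrderIso.lt_iff_lt (Ordinal.ToType.mk (o := (succ lam).ord)).symm).2 h3
    · intro ξ hξ
      simp only [dif_pos hξ]
      exact (Ordinal.ToType.toOrd (F (Ordinal.ToType.mk ⟨ξ, hξ⟩))).2
    · rw [(himg _ _).2]
      congr 1
      exact le_antisymm ((Cardinal.mk_set_le _).trans mk_L.le) hF2
    · rintro ξ hξ _ ⟨x, hx, rfl⟩
      simp only [dif_pos hξ]
      exact hx _
  · left
    push Not at h0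
    obtain ⟨B, hB1, hB2⟩ := h0
    refine ⟨(fun x : ((succ lam).ord).ToType => (Ordinal.ToType.toOrd x).1) ''
      {γ | Disjoint (A γ) B}, (fun x : (lam.ord).ToType => (Ordinal.ToType.toOrd x).1) '' B,
      (himg _ _).1, ?_, (himg _ _).1, ?_, ?_⟩
    · rw [(himg _ _).2]
      congr 1
      exact le_antisymm ((Cardinal.mk_set_le _).trans mk_W.le) (Order.succ_le_of_lt hB2)
    · rw [(himg _ _).2]
      congr 1
      exact le_antisymm ((Cardinal.mk_set_le _).trans mk_L.le) hB1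
    · rintro _ ⟨γ, hγ, rfl⟩ _ ⟨x, hx, rfl⟩
      have h3 : x ∉ A γ := fun h' => (Set.disjoint_left.1 hγ) h' hx
      have h4 : ∀ a : Fin 2, a ≠ 1 → a = 0 := by decide
      exact h4 _ h3

/-- all finite `α` -/
theorem arrow_finite (hlam : ℵ₀ ≤ lam) (α : Ordinal.{u}) (hα : α < Ordinal.omega0) :
    Arrow lam α := by
  refine arrow_of α fun A h0 => ?_
  obtain ⟨n, rfl⟩ := Ordinal.lt_omega0.1 hα
  obtain ⟨F, hF1, hF2⟩ := pos_finite hlam A h0 n
  have h1 : ∀ q : (n : Ordinal.{u}).ToType, ∃ m : ℕ, (Ordinal.ToType.toOrd q).1 = m := fun q =>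
    Ordinal.lt_omega0.1 ((Ordinal.ToType.toOrd q).2.trans (Ordinal.nat_lt_omega0 n))
  choose p hp using h1
  refine ⟨fun q => F (p q), ?_, hF2.trans (Cardinal.mk_le_mk_of_subset ?_)⟩
  · intro q q' hqq
    refine hF1 ?_
    have h2 : Ordinal.ToType.toOrd q < Ordinal.ToType.toOrd q' :=
      (OrderIso.lt_iff_lt (Ordinal.ToType.mk (o := (n : Ordinal.{u}))).symm).2 hqq
    have h3 : (Ordinal.ToType.toOrd q).1 < (Ordinal.ToType.toOrd q').1 := h2
    rw [hp, hp] at h3
    exact_mod_cast h3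
  · intro x hx q
    refine hx _ ?_
    have h3 : (Ordinal.ToType.toOrd q).1 < n := (Ordinal.ToType.toOrd q).2
    rw [hp] at h3
    exact_mod_cast h3

/-- all countable `α` -/
theorem arrow_countable (hlt : ℵ₀ < lam) (hcof : lam.ord.cof = ℵ₀)
    (hsl : ∀ c < lam, 2 ^ c < lam) (α : Ordinal.{u}) (hα : α.card ≤ ℵ₀) : Arrow lam α := by
  refine arrow_of α fun A h0 => ?_
  haveI : Countable α.ToType := by
    rw [← Cardinal.mk_le_aleph0_iff, Cardinal.mk_toType]
    exact hα
  obtain ⟨F, hF1, hF2⟩ := pos_countable hlt hcof hsl A h0 (WithTop α.ToType)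
  exact ⟨fun q => F q, fun q q' h => hF1 (WithTop.coe_lt_coe.2 h),
    hF2.trans (Cardinal.mk_le_mk_of_subset fun x hx q => hx q)⟩

end Pool.Agent.Y588.PR
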