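import Pool.Agent.Y588.PR.Basic
import Pool.Agent.H764R3.ER

set_option autoImplicit false

/-! # The asymmetric polarized relation: a colouring -/

namespace Pool.Agent.Y588.PR

open Cardinal Order Set

universe u

section Core

variable {W L I : Type u} [LinearOrder W] [WellFoundedLT W] [LinearOrder I] [WellFoundedLT I]

/-- The construction of the sets `Z_γ`. -/
lemma core (lam : Cardinal.{u}) (d : W → W → I) (ν : I → Cardinal.{u})
    (hν0 : ∀ i, ℵ₀ ≤ ν i) (hν : ∀ i, ν i < lam)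
    (hd : ∀ (γ : W) (i : I), #{δ | δ < γ ∧ d δ γ ≤ i} ≤ ν i)
    (B : W → Set L) (hB : ∀ β, lam ≤ #(B β)) :
    ∃ z : W → W → L, (∀ γ β, β < γ → z γ β ∈ B β) ∧
      ∀ (h : ℕ → W) (i : I), (∀ m n, m < n → h m < h n ∧ d (h m) (h n) ≤ i) →
        #{x : L | ∀ n, ∃ β < h n, z (h n) β = x} < lam := by
  obtain ⟨z, hz1, hz2⟩ := exists_seq (J := W) (X := W → L)
    (R := fun γ y => ∀ β < γ, y β ∈ B β)
    (Q := fun δ γ x y => ∀ β < γ, d δ γ ≤ d β γ → ∀ β' < δ, d β' δ ≤ d β γ → y β ≠ x β') (by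
      intro γ g
      have hex : ∀ β : W, β < γ → ∃ w : L, w ∈ B β ∧
          ∀ δ (hδ : δ < γ), d δ γ ≤ d β γ → ∀ β' < δ, d β' δ ≤ d β γ → w ≠ g δ hδ β' := by
        intro β _
        let V : Set L := ⋃ p : {δ | δ < γ ∧ d δ γ ≤ d β γ},
          (fun β' => g p.1 p.2.1 β') '' {β' | β' < p.1 ∧ d β' p.1 ≤ d β γ}
        have hV : #V ≤ ν (d β γ) := by
          refine (Cardinal.mk_iUnion_le _).trans ?_
          refine (mul_le_mul' (hd γ (d β γ)) (ciSup_le' ?_)).trans
            (Cardinal.mul_eq_self (hν0 _)).le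
          intro p
          exact Cardinal.mk_image_le.trans (hd p.1 (d β γ))
        have hne : ¬ B β ⊆ V := by
          intro hsub
          exact absurd (((hB β).trans (Cardinal.mk_le_mk_of_subset hsub)).trans hV)
            (not_le.2 (hν _))
        obtain ⟨w, hw, hwV⟩ := Set.not_subset.1 hne
        refine ⟨w, hw, ?_⟩
        intro δ hδ h1 β' hβ' h2 heq
        apply hwV
        exact Set.mem_iUnion.2 ⟨⟨δ, hδ, h1⟩, β', ⟨hβ', h2⟩, heq.symm⟩
      classical
      by_cases hL : Nonempty L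
      · obtain ⟨l0⟩ := hL
        refine ⟨fun β => if hβ : β < γ then (hex β hβ).choose else l0, ?_, ?_⟩
        · intro β hβ
          simp only [dif_pos hβ]
          exact (hex β hβ).choose_spec.1
        · intro δ hδ β hβ h1 β' hβ' h2
          simp only [dif_pos hβ]
          exact (hex β hβ).choose_spec.2 δ hδ h1 β' hβ' h2
      · exfalso
        have h1 := hB γ
        have : #(B γ) = 0 := by
          rw [Cardinal.mk_eq_zero_iff]
          exact ⟨fun x => hL ⟨x.1⟩⟩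
        rw [this] at h1
        exact absurd ((hν (d γ γ)).trans_le h1) (not_lt.2 zero_le))
  refine ⟨z, fun γ β hβ => hz1 γ β hβ, ?_⟩
  intro h i hh
  have hsub : {x : L | ∀ n, ∃ β < h n, z (h n) β = x} ⊆
      ⋃ n : ULift.{u} ℕ, (fun β => z (h n.down) β) '' {β | β < h n.down ∧ d β (h n.down) ≤ i} := by
    intro x hx
    by_contra hcon
    choose β hβ1 hβ2 using hx
    have hbig : ∀ n, i < d (β n) (h n) := by
      intro n
      by_contra hle
      push Not at hle
      exact hcon (Set.mem_iUnion.2 ⟨⟨n⟩, β n, ⟨hβ1 n, hle⟩, hβ2 n⟩)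
    have hdec : ∀ m n, m < n → d (β n) (h n) < d (β m) (h m) := by
      intro m n hmn
      by_contra hle
      push Not at hle
      obtain ⟨h1, h2⟩ := hh m n hmn
      exact hz2 (h m) (h n) h1 (β n) (hβ1 n) (h2.trans (hbig n).le) (β m) (hβ1 m) hle
        ((hβ2 n).trans (hβ2 m).symm)
    have hwf := wellFounded_lt (α := I)
    exact (RelEmbedding.wellFounded_iff_isEmpty.1 hwf).false
      (RelEmbedding.natGT (fun n => d (β n) (h n)) (fun n => hdec n (n+1) (Nat.lt_succ_self n)))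
  refine lt_of_le_of_lt (Cardinal.mk_le_mk_of_subset hsub) ?_
  refine lt_of_le_of_lt ((Cardinal.mk_iUnion_le _).trans ?_) (hν i)
  refine (mul_le_mul' (?_ : #(ULift.{u} ℕ) ≤ ν i) (ciSup_le' ?_)).trans
    (Cardinal.mul_eq_self (hν0 _)).le
  · simpa using hν0 i
  · intro n
    exact Cardinal.mk_image_le.trans (hd _ _)

end Core

variable {lam : Cardinal.{u}}

/-- The colouring: `0` is never homogeneous on a large rectangle, and sequences of ordinals on which
the auxiliary function `d` is bounded have few common neighbours in colour `1`. -/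
theorem exists_colouring (hlt : ℵ₀ < lam) (hch : 2 ^ lam = succ lam) :
    ∃ (S : Set (L lam)) (d : W lam → W lam → S) (c : Ordinal.{u} → Ordinal.{u} → Fin 2),
      (∀ x : L lam, ∃ s ∈ S, x ≤ s) ∧ #S = lam.ord.cof ∧
      (¬ ∃ A B : Set Ordinal.{u},
        A ⊆ Set.Iio (succ lam).ord ∧ #A = Cardinal.lift.{u + 1} (succ lam) ∧
        B ⊆ Set.Iio lam.ord ∧ #B = Cardinal.lift.{u + 1} lam ∧
        ∀ a ∈ A, ∀ b ∈ B, c a b = 0) ∧
      ∀ (h : ℕ → W lam) (i : S), (∀ m n, m < n → h m < h n ∧ d (h m) (h n) ≤ i) →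
        #{x : L lam | ∀ n, c (Ordinal.ToType.toOrd (h n)).1 (Ordinal.ToType.toOrd x).1 = 1}
          < lam := by
  classical
  have hlam : ℵ₀ ≤ lam := hlt.le
  -- a cofinal subset
  obtain ⟨S, hScof, hScard⟩ : ∃ S : Set (L lam), (∀ x : L lam, ∃ s ∈ S, x ≤ s) ∧
      #S = lam.ord.cof := by
    have h1 : Order.cof (L lam) = lam.ord.cof := by
      rw [← Ordinal.cof_type, Ordinal.type_toType]
    obtain ⟨S, hS1, hS2⟩ := Order.exists_cof_eq (L lam)
    exact ⟨S, hS1, hS2.trans h1⟩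
  have hLne : Nonempty (L lam) := L_nonempty hlam
  -- the rank function with small fibres
  have hrk : ∀ x : L lam, ({s : S | x ≤ s.1} : Set S).Nonempty := by
    intro x
    obtain ⟨s, hs, hxs⟩ := hScof x
    exact ⟨⟨s, hs⟩, hxs⟩
  let rk : L lam → S := fun x => WellFounded.min (wellFounded_lt (α := S)) _ (hrk x)
  have hrk1 : ∀ x : L lam, x ≤ (rk x).1 := fun x =>
    WellFounded.min_mem (wellFounded_lt (α := S)) _ (hrk x)
  have he : ∀ γ : W lam, ∃ f : W lam → L lam, Set.InjOn f (Set.Iio γ) := by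
    intro γ
    have h1 : #(Set.Iio γ) ≤ #(L lam) := by rw [mk_L]; exact Iio_W γ
    obtain ⟨f⟩ := h1
    refine ⟨fun x => if h : x ∈ Set.Iio γ then f ⟨x, h⟩ else Classical.arbitrary (L lam), ?_⟩
    intro x hx y hy hxy
    simp only [dif_pos hx, dif_pos hy] at hxy
    exact congrArg Subtype.val (f.injective hxy)
  choose e he using he
  let d : W lam → W lam → S := fun δ γ => rk (e γ δ)
  let ν : S → Cardinal.{u} := fun i => max (#(Set.Iic i.1)) ℵ₀
  have hν0 : ∀ i, ℵ₀ ≤ ν i := fun i => le_max_right _ _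
  have hν : ∀ i, ν i < lam := fun i => max_lt (Iic_L hlam i.1) hlt
  have hd : ∀ (γ : W lam) (i : S), #{δ | δ < γ ∧ d δ γ ≤ i} ≤ ν i := by
    intro γ i
    have hinj : Set.InjOn (e γ) {δ | δ < γ ∧ d δ γ ≤ i} := (he γ).mono (fun δ hδ => hδ.1)
    rw [← Cardinal.mk_image_eq_of_injOn _ _ hinj]
    refine (Cardinal.mk_le_mk_of_subset ?_).trans (le_max_left _ _)
    rintro _ ⟨δ, hδ, rfl⟩
    exact (hrk1 (e γ δ)).trans hδ.2
  -- enumeration of the large subsets
  obtain ⟨B, hBsurj⟩ : ∃ B : W lam → {T : Set (L lam) // #T = lam}, Function.Surjective B := by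
    have hne : Nonempty {T : Set (L lam) // #T = lam} :=
      ⟨⟨Set.univ, by rw [Cardinal.mk_univ, mk_L]⟩⟩
    have hle : #{T : Set (L lam) // #T = lam} ≤ #(W lam) := by
      refine (Cardinal.mk_subtype_le _).trans ?_
      rw [Cardinal.mk_set, mk_L, hch, mk_W]
    obtain ⟨g⟩ := hle
    exact ⟨Function.invFun g, Function.invFun_surjective g.injective⟩
  obtain ⟨z, hz1, hz2⟩ := core (W := W lam) (L := L lam) (I := S) lam d ν hν0 hν hd
    (fun β => (B β).1) (fun β => (B β).2.ge)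
  -- the colouring
  let c : Ordinal.{u} → Ordinal.{u} → Fin 2 := fun a b =>
    if ∃ (ha : a < (succ lam).ord) (hb : b < lam.ord),
      ∃ β < (Ordinal.ToType.mk ⟨a, ha⟩ : W lam), z (Ordinal.ToType.mk ⟨a, ha⟩) β
        = (Ordinal.ToType.mk ⟨b, hb⟩ : L lam) then 1 else 0
  refine ⟨S, d, c, hScof, hScard, ?_, ?_⟩
  · -- colour 0
    rintro ⟨A, Bs, hA1, hA2, hB1, hB2, hc⟩
    have hA3 := card_pull _ A hA1
    have hB3 := card_pull _ Bs hB1
    rw [hA2, Cardinal.lift_inj] at hA3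
    rw [hB2, Cardinal.lift_inj] at hB3
    obtain ⟨β, hβ⟩ := hBsurj ⟨{x : L lam | (Ordinal.ToType.toOrd x).1 ∈ Bs}, hB3⟩
    obtain ⟨γ, hγA, hβγ⟩ : ∃ γ ∈ {x : W lam | (Ordinal.ToType.toOrd x).1 ∈ A}, β < γ := by
      by_contra hcon
      push Not at hcon
      have h1 : #{x : W lam | (Ordinal.ToType.toOrd x).1 ∈ A} ≤ #(Set.Iic β) :=
        Cardinal.mk_le_mk_of_subset hcon
      rw [hA3] at h1
      exact absurd (h1.trans (Iic_W hlam β)) (not_le.2 (lt_succ lam))
    have hz := hz1 γ β hβγ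
    rw [hβ] at hz
    have h0 := hc _ hγA _ hz
    have h1 : c (Ordinal.ToType.toOrd γ).1 (Ordinal.ToType.toOrd (z γ β)).1 = 1 := by
      simp only [c]
      rw [if_pos]
      exact ⟨(Ordinal.ToType.toOrd γ).2, (Ordinal.ToType.toOrd (z γ β)).2, β, by simpa using hβγ,
        by simp⟩
    rw [h1] at h0
    exact absurd h0 (by decide)
  · -- colour 1
    intro h i hh
    refine lt_of_le_of_lt (Cardinal.mk_le_mk_of_subset ?_) (hz2 h i hh)
    intro x hx n
    have h1 := hx n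
    simp only [c] at h1
    split_ifs at h1 with h2
    · obtain ⟨ha, hb, β, hβ1, hβ2⟩ := h2
      refine ⟨β, ?_, ?_⟩
      · simpa using hβ1
      · simpa using hβ2
    · exact absurd h1 (by decide)

/-- the relation fails for `α` if all increasing sequences of length `α` have infinite subsequences
on which `d` is bounded -/
theorem not_arrow (hlt : ℵ₀ < lam) (hch : 2 ^ lam = succ lam) (α : Ordinal.{u})
    (hα : ∀ S : Set (L lam), (∀ x : L lam, ∃ s ∈ S, x ≤ s) → #S = lam.ord.cof →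
      ∀ (d : W lam → W lam → S) (f : α.ToType → W lam), StrictMono f →
        ∃ (s : ℕ → α.ToType) (i : S), ∀ m n, m < n → s m < s n ∧ d (f (s m)) (f (s n)) ≤ i) :
    ¬ Arrow lam α := by
  intro hA
  obtain ⟨S, d, c, hS, hS', h0, h1⟩ := exists_colouring hlt hch
  rcases hA c with h | ⟨f, B, hf1, hf2, hB1, hB2, hc⟩
  · exact h0 h
  have hB3 := card_pull _ B hB1
  rw [hB2, Cardinal.lift_inj] at hB3
  let F : α.ToType → W lam := fun x =>
    Ordinal.ToType.mk ⟨f (Ordinal.ToType.toOrd x).1, hf2 _ (Ordinal.ToType.toOrd x).2⟩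
  have hF : StrictMono F := by
    intro x y hxy
    simp only [F]
    rw [OrderIso.lt_iff_lt]
    exact hf1 (Ordinal.ToType.toOrd x).2 (Ordinal.ToType.toOrd y).2
      ((OrderIso.lt_iff_lt (Ordinal.ToType.mk (o := α)).symm).2 hxy)
  obtain ⟨s, i, hs⟩ := hα S hS hS' d F hF
  have h2 := h1 (fun n => F (s n)) i (fun m n hmn => ⟨hF (hs m n hmn).1, (hs m n hmn).2⟩)
  refine absurd h2 (not_lt.2 ?_)
  refine hB3.ge.trans (Cardinal.mk_le_mk_of_subset ?_)
  intro x hx n
  have h3 := hc (Ordinal.ToType.toOrd (s n)).1 (Ordinal.ToType.toOrd (s n)).2 _ hx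
  simpa [F] using h3

/-- Singular cardinals of uncountable cofinality: the relation fails for `ω`. -/
theorem not_arrow_omega (hcof : ℵ₀ < lam.ord.cof) (hch : 2 ^ lam = succ lam) :
    ¬ Arrow lam Ordinal.omega0 := by
  have hle : lam.ord.cof ≤ lam := Ordinal.cof_ord_le _
  refine not_arrow (hcof.trans_le hle) hch _ ?_
  intro S hS hS' d f hf
  classical
  -- the sequence
  let s : ℕ → Ordinal.omega0.{u}.ToType := fun n =>
    Ordinal.ToType.mk ⟨(n : Ordinal.{u}), Ordinal.nat_lt_omega0 n⟩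
  have hs : ∀ m n, m < n → s m < s n := by
    intro m n hmn
    simp only [s]
    rw [OrderIso.lt_iff_lt]
    exact Subtype.mk_lt_mk.2 (by exact_mod_cast hmn)
  -- countable sets are bounded
  let T : Set (L lam) := Set.range (fun p : ULift.{u} (ℕ × ℕ) =>
    (d (f (s p.down.1)) (f (s p.down.2))).1)
  have hT : #T < lam.ord.cof := by
    refine lt_of_le_of_lt Cardinal.mk_range_le ?_
    simpa using hcof
  have h1 : Order.cof (L lam) = lam.ord.cof := by
    rw [← Ordinal.cof_type, Ordinal.type_toType]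
  have h2 : ¬ IsCofinal T := by
    intro h
    have h3 := Order.cof_le h
    rw [h1] at h3
    exact absurd h3 (not_le.2 hT)
  obtain ⟨x, hx⟩ : ∃ x, ∀ y ∈ T, ¬ x ≤ y := by
    unfold IsCofinal at h2
    push Not at h2
    obtain ⟨x, hx⟩ := h2
    exact ⟨x, fun y hy => not_le.2 (hx y hy)⟩
  obtain ⟨i, hi, hxi⟩ := hS x
  refine ⟨s, ⟨i, hi⟩, fun m n hmn => ⟨hs m n hmn, ?_⟩⟩
  have h4 := hx _ (Set.mem_range_self (⟨(m, n)⟩ : ULift.{u} (ℕ × ℕ)))
  exact Subtype.coe_le_coe.1 ((not_le.1 h4).le.trans hxi)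

/-- an increasing sequence in an infinite set of a well-order -/
theorem exists_increasing {X : Type u} [LinearOrder X] [WellFoundedLT X] (H : Set X)
    (hH : ℵ₀ ≤ #H) : ∃ s : ℕ → X, (∀ n, s n ∈ H) ∧ ∀ m n, m < n → s m < s n := by
  have hinf : H.Infinite := by
    rw [← Set.infinite_coe_iff, Cardinal.infinite_iff]
    exact hH
  haveI : Infinite H := Set.infinite_coe_iff.2 hinf
  obtain ⟨g, hg⟩ := exists_seq (J := ℕ) (X := H) (R := fun _ _ => True)
    (Q := fun _ _ x y => True) (fun j g => ⟨Classical.arbitrary H, trivial, fun _ _ => trivial⟩)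
  obtain ⟨t⟩ : Nonempty (ℕ ↪ H) := ⟨Infinite.natEmbedding H⟩
  obtain ⟨φ, hφ | hφ⟩ := exists_increasing_or_nonincreasing_subseq (· < ·) (fun n => (t n : H))
  · exact ⟨fun n => (t (φ n)).1, fun n => (t (φ n)).2, fun m n hmn => hφ m n hmn⟩
  · exfalso
    have h1 : ∀ m n, m < n → (t (φ n) : H) < t (φ m) := by
      intro m n hmn
      rcases lt_trichotomy (t (φ m)) (t (φ n)) with h | h | h
      · exact absurd h (hφ m n hmn)
      · exact absurd (φ.strictMono hmn).ne (fun h' => h' (t.injective h))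
      · exact h
    have hwf := wellFounded_lt (α := H)
    exact (RelEmbedding.wellFounded_iff_isEmpty.1 hwf).false
      (RelEmbedding.natGT (fun n => (t (φ n) : H)) (fun n => h1 n (n+1) (Nat.lt_succ_self n)))

/-- Cardinals of countable cofinality: the relation fails for `(2 ^ ℵ₀)⁺`. -/
theorem not_arrow_continuum (hcof : lam.ord.cof = ℵ₀) (hlt : ℵ₀ < lam)
    (hch : 2 ^ lam = succ lam) :
    ¬ Arrow lam (succ (2 ^ ℵ₀ : Cardinal.{u})).ord := by
  refine not_arrow hlt hch _ ?_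
  intro S hS hS' d f hf
  obtain ⟨H, hH, i, hi⟩ := Pool.Agent.H764R3.ER.erdos_rado
    (U := (succ (2 ^ ℵ₀ : Cardinal.{u})).ord.ToType) (μ := ℵ₀) le_rfl
    (by rw [Cardinal.mk_ord_toType]; exact lt_succ _) (Z := S) (by rw [hS', hcof])
    (fun x y => d (f x) (f y))
  obtain ⟨s, hs1, hs2⟩ := exists_increasing H ((le_succ _).trans hH)
  exact ⟨s, i, fun m n hmn => ⟨hs2 m n hmn, (hi _ (hs1 m) _ (hs1 n) (hs2 m n hmn)).le⟩⟩

end Pool.Agent.Y588.PR
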