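import Pool.Agent.Y588.PR.Basic
import Pool.Agent.H764R3.ER

set_option autoImplicit false

/-! # The asymmetric polarized relation: positive results

`A γ` is the set of the points which have colour `1` with `γ`. -/

namespace Pool.Agent.Y588.PR

open Cardinal Order Set

universe u

variable {lam : Cardinal.{u}}

/-- Without a large rectangle of colour `0`, all large sets have large intersections with all but a
few sets `A γ`. -/
theorem large_inter (hlam : ℵ₀ ≤ lam) (A : W lam → Set (L lam))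
    (h0 : ∀ B : Set (L lam), lam ≤ #B → #{γ | Disjoint (A γ) B} ≤ lam)
    (B : Set (L lam)) (hB : lam ≤ #B) : ∃ e : W lam, ∀ γ, e ≤ γ → lam ≤ #(A γ ∩ B : Set (L lam)) := by
  classical
  have hB' : #B = #(L lam × L lam) := by
    rw [Cardinal.mk_prod, Cardinal.lift_id, mk_L, Cardinal.mul_eq_self hlam]
    exact le_antisymm ((Cardinal.mk_set_le B).trans mk_L.le) hB
  obtain ⟨φ⟩ := Cardinal.eq.1 hB'
  let P : L lam → Set (L lam) := fun j => {x | ∃ h : x ∈ B, (φ ⟨x, h⟩).1 = j}
  have hP : ∀ j, lam ≤ #(P j) := by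
    intro j
    have h1 : #(L lam) ≤ #(P j) := by
      let f : L lam → P j := fun y => ⟨(φ.symm (j, y)).1, (φ.symm (j, y)).2, by simp⟩
      refine Cardinal.mk_le_of_injective (f := f) ?_
      intro y y' hyy
      have h2 : (f y).1 = (f y').1 := by rw [hyy]
      have h3 := φ.symm.injective (Subtype.ext h2)
      exact (Prod.mk.inj h3).2
    exact mk_L.ge.trans h1
  have hsmall : ∀ γ, ¬ lam ≤ #(A γ ∩ B : Set (L lam)) → ∃ j, Disjoint (A γ) (P j) := by
    intro γ hγ
    by_contra hcon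
    push Not at hcon
    apply hγ
    have hx : ∀ j, ∃ x, x ∈ A γ ∧ x ∈ P j := fun j => Set.not_disjoint_iff.1 (hcon j)
    choose x hx1 hx2 using hx
    let f : L lam → (A γ ∩ B : Set (L lam)) := fun j => ⟨x j, hx1 j, (hx2 j).1⟩
    refine mk_L.ge.trans (Cardinal.mk_le_of_injective (f := f) ?_)
    intro j j' hjj
    have h2 : x j = x j' := by
      have h2 : (f j).1 = (f j').1 := by rw [hjj]
      exact h2
    obtain ⟨h3, h4⟩ := hx2 j
    obtain ⟨h5, h6⟩ := hx2 j'
    rw [← h4, ← h6]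
    congr 2
    exact Subtype.ext h2
  have hT : #{γ | ¬ lam ≤ #(A γ ∩ B : Set (L lam))} ≤ lam := by
    have h1 : {γ | ¬ lam ≤ #(A γ ∩ B : Set (L lam))} ⊆ ⋃ j : L lam, {γ | Disjoint (A γ) (P j)} := by
      intro γ hγ
      obtain ⟨j, hj⟩ := hsmall γ hγ
      exact Set.mem_iUnion.2 ⟨j, hj⟩
    refine (Cardinal.mk_le_mk_of_subset h1).trans ((Cardinal.mk_iUnion_le _).trans ?_)
    refine (mul_le_mul' mk_L.le (ciSup_le' ?_)).trans (Cardinal.mul_eq_self hlam).le
    intro j
    exact h0 _ (hP j)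
  obtain ⟨e, he⟩ := bdd hlam _ hT
  refine ⟨e, fun γ hγ => ?_⟩
  by_contra hcon
  exact absurd (he γ hcon) (not_lt.2 hγ)

/-- `δ` is closed under `g` and not the least element -/
def Cl (g : W lam → W lam) (δ : W lam) : Prop := (∃ x, x < δ) ∧ ∀ x < δ, g x < δ

/-- there are arbitrarily large closure points -/
theorem exists_cl (hlam : ℵ₀ ≤ lam) (g : W lam → W lam) (a : W lam) : ∃ δ, a < δ ∧ Cl g δ := by
  classical
  have h1 : ∀ x : W lam, ∃ e, x < e ∧ ∀ y, y ≤ x → g y < e := by
    intro x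
    obtain ⟨e, he⟩ := bdd hlam (insert x (g '' Set.Iic x)) (by
      refine Cardinal.mk_insert_le.trans ?_
      exact (add_le_add (Cardinal.mk_image_le.trans (Iic_W hlam x)) (one_le_aleph0.trans hlam)).trans
        (Cardinal.add_eq_self hlam).le)
    exact ⟨e, he x (Set.mem_insert _ _), fun y hy => he _ (Set.mem_insert_of_mem _ ⟨y, hy, rfl⟩)⟩
  choose nx hnx1 hnx2 using h1
  let s : ℕ → W lam := fun n => nx^[n] a
  have hs : ∀ n, s (n + 1) = nx (s n) := fun n => Function.iterate_succ_apply' nx n a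
  obtain ⟨e, he⟩ := bdd_range hlam (T := ULift.{u} ℕ) (by simpa using hlam) (fun n => s n.down)
  have hne : ({δ : W lam | ∀ n, s n < δ} : Set (W lam)).Nonempty := ⟨e, fun n => he ⟨n⟩⟩
  let δ := WellFounded.min (wellFounded_lt (α := W lam)) _ hne
  have hδ : ∀ n, s n < δ := WellFounded.min_mem (wellFounded_lt (α := W lam)) _ hne
  refine ⟨δ, hδ 0, ⟨a, hδ 0⟩, ?_⟩
  intro x hx
  have h2 : ¬ ∀ n, s n < x := fun h =>
    WellFounded.not_lt_min (wellFounded_lt (α := W lam)) {δ : W lam | ∀ n, s n < δ} h hx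
  push Not at h2
  obtain ⟨n, hn⟩ := h2
  have h3 := hnx2 (s n) x hn
  rw [← hs] at h3
  exact h3.trans (hδ _)

/-- suprema of families of functions -/
theorem exists_sup (hlam : ℵ₀ ≤ lam) {T : Type u} (hT : #T ≤ lam) (g : T → W lam → W lam) :
    ∃ G : W lam → W lam, ∀ t x, g t x ≤ G x := by
  have h : ∀ x, ∃ e, ∀ t, g t x < e := fun x => bdd_range hlam hT (fun t => g t x)
  choose G hG using h
  exact ⟨G, fun t x => (hG x t).le⟩

/-- the common points of finitely many sets -/
def AA (A : W lam → Set (L lam)) (v : Finset (W lam)) : Set (L lam) := {x | ∀ γ ∈ v, x ∈ A γ}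

/-- closure points for which all finite intersections are large -/
theorem exists_g0 (hlam : ℵ₀ ≤ lam) (A : W lam → Set (L lam))
    (h1 : ∀ B : Set (L lam), lam ≤ #B → ∃ e : W lam, ∀ γ, e ≤ γ → lam ≤ #(A γ ∩ B : Set (L lam))) :
    ∃ g0 : W lam → W lam, ∀ v : Finset (W lam), (∀ γ ∈ v, Cl g0 γ) → lam ≤ #(AA A v) := by
  classical
  have h2 : ∀ v : Finset (W lam), ∃ e : W lam, lam ≤ #(AA A v) → ∀ γ, e ≤ γ →
      lam ≤ #(A γ ∩ AA A v : Set (L lam)) := by
    intro v
    by_cases h : lam ≤ #(AA A v)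
    · obtain ⟨e, he⟩ := h1 _ h
      exact ⟨e, fun _ => he⟩
    · haveI := W_nonempty hlam
      exact ⟨Classical.arbitrary _, fun h' => absurd h' h⟩
  choose ε hε using h2
  have h3 : ∀ x : W lam, ∃ e : W lam, ∀ v : Finset (W lam), (∀ y ∈ v, y ≤ x) → ε v < e := by
    intro x
    have hcard : #(Finset (Set.Iic x)) ≤ lam := by
      by_cases hfin : Finite (Set.Iic x)
      · haveI := Fintype.ofFinite (Set.Iic x)
        exact ((Cardinal.lt_aleph0_of_finite _).le).trans hlam
      · haveI : Infinite (Set.Iic x) := not_finite_iff_infinite.1 hfin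
        rw [Cardinal.mk_finset_of_infinite]
        exact Iic_W hlam x
    obtain ⟨e, he⟩ := bdd_range hlam hcard
      (fun v : Finset (Set.Iic x) => ε (v.map (Function.Embedding.subtype _)))
    refine ⟨e, fun v hv => ?_⟩
    have h4 := he (v.subtype (· ∈ Set.Iic x))
    have h5 : (v.subtype (· ∈ Set.Iic x)).map (Function.Embedding.subtype (· ∈ Set.Iic x)) = v :=
      Finset.subtype_map_of_mem (p := (· ∈ Set.Iic x)) (fun y hy => hv y hy)
    rw [h5] at h4
    exact h4
  choose g0 hg0 using h3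
  refine ⟨g0, fun v => ?_⟩
  induction v using Finset.induction_on_max with
  | empty =>
    intro _
    have h5 : AA A ∅ = Set.univ := by
      ext x
      simp [AA]
    rw [h5, Cardinal.mk_univ, mk_L]
  | insert γ v hγ ih =>
    intro hv
    have h5 := ih (fun y hy => hv y (Finset.mem_insert_of_mem hy))
    have hγ' := hv γ (Finset.mem_insert_self _ _)
    obtain ⟨⟨y0, hy0⟩, hcl⟩ := hγ'
    -- a bound of `v` below `γ`
    obtain ⟨x, hx, hxv⟩ : ∃ x < γ, ∀ y ∈ v, y ≤ x := by
      by_cases hne : v.Nonempty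
      · exact ⟨v.max' hne, hγ _ (Finset.max'_mem _ _), fun y hy => Finset.le_max' _ _ hy⟩
      · rw [Finset.not_nonempty_iff_eq_empty] at hne
        subst hne
        exact ⟨y0, hy0, by simp⟩
    have h6 := hε v h5 γ ((hg0 x v hxv).trans (hcl x hx)).le
    refine h6.trans (Cardinal.mk_le_mk_of_subset ?_)
    rintro z ⟨hz1, hz2⟩ y hy
    rcases Finset.mem_insert.1 hy with h | h
    · rw [h]; exact hz1
    · exact hz2 y h

/-- All finite `α`. -/
theorem pos_finite (hlam : ℵ₀ ≤ lam) (A : W lam → Set (L lam))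
    (h0 : ∀ B : Set (L lam), lam ≤ #B → #{γ | Disjoint (A γ) B} ≤ lam) (n : ℕ) :
    ∃ F : ℕ → W lam, StrictMono F ∧ lam ≤ #{x | ∀ m < n, x ∈ A (F m)} := by
  classical
  obtain ⟨g0, hg0⟩ := exists_g0 hlam A (large_inter hlam A h0)
  haveI := W_nonempty hlam
  have h1 : ∀ a : W lam, ∃ δ, a < δ ∧ Cl g0 δ := exists_cl hlam g0
  choose nx hnx1 hnx2 using h1
  let F : ℕ → W lam := fun n => nx^[n + 1] (Classical.arbitrary _)
  have hF : ∀ n, F (n + 1) = nx (F n) := fun n => Function.iterate_succ_apply' nx (n + 1) _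
  have hF2 : ∀ n, Cl g0 (F n) := by
    intro n
    have : F n = nx (nx^[n] (Classical.arbitrary _)) := Function.iterate_succ_apply' nx n _
    rw [this]
    exact hnx2 _
  refine ⟨F, strictMono_nat_of_lt_succ fun n => ?_, ?_⟩
  · rw [hF]
    exact hnx1 _
  · refine (hg0 ((Finset.range n).image F) ?_).trans (Cardinal.mk_le_mk_of_subset ?_)
    · intro γ hγ
      obtain ⟨m, _, rfl⟩ := Finset.mem_image.1 hγ
      exact hF2 m
    · intro x hx m hm
      exact hx _ (Finset.mem_image_of_mem _ (Finset.mem_range.2 hm))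

end Pool.Agent.Y588.PR
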